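import Pool.Agent.H38.AE.Targets
import Pool.Agent.H30.Vino.Divisor

/-!
# Module B: the number of factorisations with a given product
-/

namespace Pool.Agent.H54.AE.B

open Pool.Agent.H38.AE

theorem pf_B : T_B := by
  intro k ε hε
  obtain ⟨n0, hn0, hn0'⟩ : ∃ n0 : ℕ, 1 ≤ n0 ∧ 1 / (n0 : ℝ) ≤ ε := by
    obtain ⟨n, hn⟩ := exists_nat_ge (1 / ε)
    refine ⟨n + 1, by omega, ?_⟩
    have h1 : 1 / ε ≤ ((n + 1 : ℕ) : ℝ) := by push_cast; linarith
    rw [div_le_iff₀ (by positivity)]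
    rw [div_le_iff₀ hε] at h1
    linarith
  obtain ⟨C0, hC0, hC⟩ := Pool.Agent.H30.Vino.card_divisors_pow_le (k * n0)
  refine ⟨(C0 : ℝ) ^ (1 / (n0 : ℝ)), by positivity, fun m hm => ?_⟩
  have h1 : ((Fintype.piFinset (fun _ : Fin k => m.divisors)).filter
      (fun u => ∏ i, u i = m)).card ≤ m.divisors.card ^ k := by
    refine (Finset.card_filter_le _ _).trans ?_
    rw [Fintype.card_piFinset]
    simp
  have h2 := hC m (by omega)
  have h3 : ((((Fintype.piFinset (fun _ : Fin k => m.divisors)).filter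
      (fun u => ∏ i, u i = m)).card : ℕ) : ℝ) ≤ ((m.divisors.card ^ k : ℕ) : ℝ) := by
    exact_mod_cast h1
  refine h3.trans ?_
  set D : ℕ := m.divisors.card ^ k with hD
  have h4 : ((D : ℝ)) ^ n0 ≤ (C0 : ℝ) * m := by
    have : D ^ n0 ≤ C0 * m := by rw [hD, ← pow_mul]; exact h2
    exact_mod_cast this
  have h5 : (D : ℝ) = ((D : ℝ) ^ n0) ^ (1 / (n0 : ℝ)) := by
    rw [one_div]
    exact (Real.pow_rpow_inv_natCast (Nat.cast_nonneg D) (by omega)).symm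
  rw [h5]
  have hm1 : (1 : ℝ) ≤ m := by exact_mod_cast hm
  calc ((D : ℝ) ^ n0) ^ (1 / (n0 : ℝ)) ≤ ((C0 : ℝ) * m) ^ (1 / (n0 : ℝ)) :=
        Real.rpow_le_rpow (pow_nonneg (Nat.cast_nonneg D) _) h4 (by positivity)
    _ = (C0 : ℝ) ^ (1 / (n0 : ℝ)) * (m : ℝ) ^ (1 / (n0 : ℝ)) :=
        Real.mul_rpow (by positivity) (by positivity)
    _ ≤ (C0 : ℝ) ^ (1 / (n0 : ℝ)) * (m : ℝ) ^ ε := by
        gcongr

end Pool.Agent.H54.AE.B
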